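import Pool.Agent.H575.ES.Stm
import Pool.Graph.R_seed8.TH841.SH.Grp
import Pool.Graph.R_seed8.Y214.SX.Rk
import Pool.Graph.R_pool_sql_team_seeded_3997aac3.Q286.EQ.MW

/-!
# The exact sequence `E(F)/2 → Sel_2 → Ш[2] → 0` over a number field (helper97, job EXA of project ES)

Adapted from the library modules `TH841/SH/Grp.lean` and `Q243/PR/Sel.lean` (the field of rational numbers).
-/

set_option autoImplicit false

namespace Pool.Agent.H97.ES

open WeierstrassCurve NumberField IsDedekindDomain
open Pool.Agent.Q161.ESF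

open scoped Classical

section field

variable {F : Type} [Field F]

lemma act_some (W : WeierstrassCurve F) {L M : Type} [Field L] [Field M] [Algebra F L]
    [Algebra F M] (φ : L →ₐ[F] M) {x y : L} (h : (W.baseChange L).toAffine.Nonsingular x y) :
    act W φ (.some x y h) =
      .some (φ x) (φ y) ((Affine.baseChange_nonsingular W φ.injective ..).mpr h) := rfl

lemma act_act (W : WeierstrassCurve F) {L M N : Type} [Field L] [Field M] [Field N] [Algebra F L]
    [Algebra F M] [Algebra F N] (φ : L →ₐ[F] M) (ψ : M →ₐ[F] N) (P : Pt W L) :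
    act W ψ (act W φ P) = act W (ψ.comp φ) P :=
  Affine.Point.map_map φ ψ P

lemma lc_apply (x : AlgebraicClosure F) : IsLocallyConstant (fun σ : GF F => σ x) := by
  rw [IsLocallyConstant.iff_exists_open]
  intro σ
  have hx : IsIntegral F x := Algebra.IsIntegral.isIntegral x
  have : FiniteDimensional F (IntermediateField.adjoin F {x}) :=
    IntermediateField.adjoin.finiteDimensional hx
  refine ⟨(fun τ => σ⁻¹ * τ) ⁻¹'
    ((IntermediateField.adjoin F {x}).fixingSubgroup : Set (GF F)),
    (IntermediateField.fixingSubgroup_isOpen _).preimage (continuous_const_mul _), ?_, ?_⟩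
  · show σ⁻¹ * σ ∈ (IntermediateField.adjoin F {x}).fixingSubgroup
    rw [inv_mul_cancel]
    exact one_mem _
  · intro τ hτ
    have h1 : σ⁻¹ * τ ∈ (IntermediateField.adjoin F {x}).fixingSubgroup := hτ
    rw [IntermediateField.mem_fixingSubgroup_iff] at h1
    have h2 := h1 x (IntermediateField.mem_adjoin_simple_self F x)
    rw [AlgEquiv.mul_apply] at h2
    have h3 := congrArg σ h2
    rw [← AlgEquiv.mul_apply, mul_inv_cancel, AlgEquiv.one_apply] at h3
    exact h3

lemma lc_act (W : WeierstrassCurve F) (Q : Pt W (AlgebraicClosure F)) :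
    IsLocallyConstant (fun σ : GF F => act W σ.toAlgHom Q) := by
  rcases Q with _ | ⟨x, y, h⟩
  · exact IsLocallyConstant.const _
  · rw [IsLocallyConstant.iff_eventually_eq]
    intro σ
    have h1 := ((IsLocallyConstant.iff_eventually_eq _).1 (lc_apply x)) σ
    have h2 := ((IsLocallyConstant.iff_eventually_eq _).1 (lc_apply y)) σ
    filter_upwards [h1, h2] with τ h3 h4
    rw [act_some, act_some]
    congr 1

lemma act_mul (W : WeierstrassCurve F) (σ τ : GF F) (Q : Pt W (AlgebraicClosure F)) :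
    act W (σ * τ).toAlgHom Q = act W σ.toAlgHom (act W τ.toAlgHom Q) := by
  rw [act_act]
  rfl

lemma locTriv_cob (W : WeierstrassCurve F) (K : Type) [Field K] [Algebra F K]
    (Q : Pt W (AlgebraicClosure F)) : LocTriv W K (fun σ => act W σ.toAlgHom Q - Q) := by
  intro ι
  refine ⟨act W ι Q, fun τ σ h => ?_⟩
  rw [map_sub, act_act, act_act, h]

lemma isCoc_cob (W : WeierstrassCurve F) (Q : Pt W (AlgebraicClosure F)) :
    IsCoc W (fun σ => act W σ.toAlgHom Q - Q) := by
  refine ⟨(lc_act W Q).sub (IsLocallyConstant.const Q), fun σ τ => ?_⟩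
  show act W (σ * τ).toAlgHom Q - Q = (act W σ.toAlgHom Q - Q) +
    act W σ.toAlgHom (act W τ.toAlgHom Q - Q)
  rw [map_sub, act_mul]
  abel

/-- fixed points are rational -/
lemma exists_rat [CharZero F] (W : WeierstrassCurve F) :
    ∃ j : W.toAffine.Point →+ Pt W (AlgebraicClosure F),
    Function.Injective j ∧ (∀ (σ : GF F) (P : W.toAffine.Point),
      act W σ.toAlgHom (j P) = j P) ∧
    ∀ P : Pt W (AlgebraicClosure F), (∀ σ : GF F, act W σ.toAlgHom P = P) → ∃ q, j q = P := by
  suffices H : ∀ W' : WeierstrassCurve F, W' = W.baseChange F →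
      ∃ j : W'.toAffine.Point →+ Pt W (AlgebraicClosure F), Function.Injective j ∧
      (∀ (σ : GF F) (P : W'.toAffine.Point), act W σ.toAlgHom (j P) = j P) ∧
      ∀ P : Pt W (AlgebraicClosure F), (∀ σ : GF F, act W σ.toAlgHom P = P) → ∃ q, j q = P by
    apply H W
    apply WeierstrassCurve.ext <;> simp [WeierstrassCurve.baseChange]
  rintro W' rfl
  refine ⟨Affine.Point.map (Algebra.ofId F (AlgebraicClosure F)), Affine.Point.map_injective _,
    ?_, ?_⟩
  · intro σ P
    rcases P with _ | ⟨x, y, h⟩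
    · rfl
    · rw [Affine.Point.map_some, act_some]
      congr 1
      · exact σ.commutes x
      · exact σ.commutes y
  · intro P hP
    rcases P with _ | ⟨X, Y, h⟩
    · exact ⟨0, rfl⟩
    · have hfix : ∀ σ : GF F, σ X = X ∧ σ Y = Y := by
        intro σ
        have := hP σ
        rw [act_some, Affine.Point.some.injEq] at this
        exact this
      obtain ⟨x, hx⟩ := Pool.Agent.TH841.SH.fix_mem (K := F) X (fun τ => (hfix τ).1)
      obtain ⟨y, hy⟩ := Pool.Agent.TH841.SH.fix_mem (K := F) Y (fun τ => (hfix τ).2)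
      subst hx hy
      have hn : (W.baseChange F).toAffine.Nonsingular x y :=
        (Affine.baseChange_nonsingular W (f := Algebra.ofId F (AlgebraicClosure F))
          (Algebra.ofId F (AlgebraicClosure F)).injective x y).mp h
      exact ⟨.some x y hn, rfl⟩

/-- division by two over the algebraic closure -/
lemma hdiv [CharZero F] {A B : F} (hD : 4 * A ^ 3 + 27 * B ^ 2 ≠ 0)
    (P : Pt (⟨0, 0, 0, A, B⟩ : WeierstrassCurve F) (AlgebraicClosure F)) :
    ∃ Q, P = Q + Q := by
  have : CharZero (AlgebraicClosure F) := inferInstance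
  have h2 : (2 : AlgebraicClosure F) ≠ 0 := two_ne_zero
  set A' := algebraMap F (AlgebraicClosure F) A with hA
  set B' := algebraMap F (AlgebraicClosure F) B with hB
  have hD' : 4 * A' ^ 3 + 27 * B' ^ 2 ≠ 0 := by
    intro h0
    apply hD
    apply (algebraMap F (AlgebraicClosure F)).injective
    have e4 : algebraMap F (AlgebraicClosure F) (4 : F) = 4 := map_ofNat _ 4
    have e27 : algebraMap F (AlgebraicClosure F) (27 : F) = 27 := map_ofNat _ 27
    rw [map_zero, map_add, map_mul, map_mul, map_pow, map_pow, ← hA, ← hB, e4, e27]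
    exact h0
  -- the roots
  obtain ⟨a, ha⟩ : ∃ a : AlgebraicClosure F, a ^ 3 + A' * a + B' = 0 := by
    have hdeg : (Polynomial.X ^ 3 + Polynomial.C A' * Polynomial.X + Polynomial.C B' :
        Polynomial (AlgebraicClosure F)).degree ≠ 0 := by
      have : (Polynomial.X ^ 3 + Polynomial.C A' * Polynomial.X + Polynomial.C B' :
        Polynomial (AlgebraicClosure F)).degree = 3 := by compute_degree!
      rw [this]
      norm_num
    obtain ⟨a, ha⟩ := IsAlgClosed.exists_root _ hdeg
    refine ⟨a, ?_⟩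
    simpa [Polynomial.IsRoot] using ha
  obtain ⟨s, hs⟩ := IsAlgClosed.exists_pow_nat_eq (-3 * a ^ 2 - 4 * A') (n := 2) (by norm_num)
  set b := (-a + s) / 2 with hb
  set c := (-a - s) / 2 with hc
  have hsum : b + c = -a := by rw [hb, hc]; field_simp; ring
  have hprod : b * c = A' + a ^ 2 := by
    rw [hb, hc]
    field_simp
    linear_combination -hs
  have hbc : b - c = s := by rw [hb, hc]; field_simp; ring
  have hdisc : (3 * a ^ 2 + A') ^ 2 * (3 * a ^ 2 + 4 * A') = 4 * A' ^ 3 + 27 * B' ^ 2 := by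
    have hB2 : B' = -(a ^ 3 + A' * a) := by linear_combination ha
    rw [hB2]
    ring
  have hne1 : 3 * a ^ 2 + A' ≠ 0 := by
    intro h0
    apply hD'
    rw [← hdisc, h0]
    ring
  have hne2 : 3 * a ^ 2 + 4 * A' ≠ 0 := by
    intro h0
    apply hD'
    rw [← hdisc, h0]
    ring
  have hab_ac : (a - b) * (a - c) = 3 * a ^ 2 + A' := by
    linear_combination -a * hsum + hprod
  have hab : a ≠ b := by
    intro h0
    apply hne1
    rw [← hab_ac, h0, sub_self, zero_mul]
  have hac : a ≠ c := by
    intro h0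
    apply hne1
    rw [← hab_ac]
    have : a - c = 0 := sub_eq_zero.2 h0
    rw [this, mul_zero]
  have hbc' : b ≠ c := by
    intro h0
    apply hne2
    have h3 : s = 0 := by rw [← hbc, h0, sub_self]
    rw [h3] at hs
    linear_combination hs
  have hR : Pool.Agent.TH841.SH.IsR
      ((⟨0, 0, 0, A, B⟩ : WeierstrassCurve F).baseChange (AlgebraicClosure F)) a b c :=
    { h1 := map_zero _
      h2 := by
        show algebraMap F (AlgebraicClosure F) 0 = _
        rw [map_zero]
        linear_combination hsum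
      h3 := map_zero _
      h4 := by
        show A' = _
        linear_combination -a * hsum - hprod
      h6 := by
        show B' = _
        linear_combination ha + a * hprod }
  exact hR.div h2 hab hac hbc' P

end field

section number

variable {F : Type} [Field F] [NumberField F]

lemma cob_mem (W : WeierstrassCurve F) (Q : Pt W (AlgebraicClosure F)) :
    (fun σ : GF F => act W σ.toAlgHom Q - Q) ∈ shaCoc W :=
  ⟨isCoc_cob W Q, fun _ => locTriv_cob W _ Q, fun _ => locTriv_cob W _ Q⟩

/-- the inclusion of the Selmer cocycles -/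
def incl (W : WeierstrassCurve F) : selC W →+ shaCoc W where
  toFun c := ⟨c.1, c.2.1⟩
  map_zero' := rfl
  map_add' _ _ := rfl

/-- the map to the Tate-Shafarevich group -/
noncomputable def toSha (W : WeierstrassCurve F) : Sel2 W →+ Sha W :=
  QuotientAddGroup.map ((cobT W).addSubgroupOf (selC W)) ((cob W).addSubgroupOf (shaCoc W))
    (incl W) (by
      rintro c ⟨P, -, hP2⟩
      exact ⟨P, hP2⟩)

/-- the class of a Selmer cocycle -/
noncomputable def scl (W : WeierstrassCurve F) : selC W →+ Sel2 W :=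
  QuotientAddGroup.mk' ((cobT W).addSubgroupOf (selC W))

/-- the class of a locally trivial cocycle -/
noncomputable def tcl (W : WeierstrassCurve F) : shaCoc W →+ Sha W :=
  QuotientAddGroup.mk' ((cob W).addSubgroupOf (shaCoc W))

lemma scl_surj {W : WeierstrassCurve F} (x : Sel2 W) : ∃ c, scl W c = x :=
  QuotientAddGroup.mk'_surjective _ x

lemma tcl_surj {W : WeierstrassCurve F} (x : Sha W) : ∃ c, tcl W c = x :=
  QuotientAddGroup.mk'_surjective _ x

lemma toSha_scl {W : WeierstrassCurve F} (c : selC W) : toSha W (scl W c) = tcl W (incl W c) :=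
  rfl

lemma scl_zero_iff {W : WeierstrassCurve F} (c : selC W) : scl W c = 0 ↔ c.1 ∈ cobT W := by
  have h1 : scl W c = 0 ↔ c ∈ (QuotientAddGroup.mk' ((cobT W).addSubgroupOf (selC W))).ker :=
    Iff.rfl
  rw [h1, QuotientAddGroup.ker_mk', AddSubgroup.mem_addSubgroupOf]

lemma tcl_zero_iff {W : WeierstrassCurve F} (c : shaCoc W) : tcl W c = 0 ↔ IsCob W c.1 := by
  have h1 : tcl W c = 0 ↔ c ∈ (QuotientAddGroup.mk' ((cob W).addSubgroupOf (shaCoc W))).ker :=
    Iff.rfl
  rw [h1, QuotientAddGroup.ker_mk', AddSubgroup.mem_addSubgroupOf]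
  rfl

/-- the image is the 2-torsion -/
lemma toSha_range {W : WeierstrassCurve F}
    (hdiv : ∀ P : Pt W (AlgebraicClosure F), ∃ Q, P = Q + Q) (x : Sha W) :
    x ∈ (toSha W).range ↔ x + x = 0 := by
  constructor
  · rintro ⟨y, rfl⟩
    obtain ⟨c, rfl⟩ := scl_surj y
    rw [← map_add, ← map_add, toSha_scl]
    have h : c + c = 0 := Subtype.ext (funext fun σ => c.2.2 σ)
    rw [h, map_zero, map_zero]
  · intro h
    obtain ⟨c, rfl⟩ := tcl_surj x
    rw [← map_add, tcl_zero_iff] at h
    obtain ⟨P, hP⟩ := h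
    obtain ⟨Q, rfl⟩ := hdiv P
    have hc' : (c.1 - fun σ : GF F => act W σ.toAlgHom Q - Q) ∈ shaCoc W :=
      (shaCoc W).sub_mem c.2 (cob_mem W Q)
    have h2 : (c.1 - fun σ : GF F => act W σ.toAlgHom Q - Q) ∈ selC W := by
      refine ⟨hc', fun σ => ?_⟩
      change (c.1 σ - (act W σ.toAlgHom Q - Q)) + (c.1 σ - (act W σ.toAlgHom Q - Q)) = 0
      have h3 : c.1 σ + c.1 σ = act W σ.toAlgHom (Q + Q) - (Q + Q) := hP σ
      have h4 : (c.1 σ - (act W σ.toAlgHom Q - Q)) + (c.1 σ - (act W σ.toAlgHom Q - Q)) =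
        (c.1 σ + c.1 σ) - ((act W σ.toAlgHom Q + act W σ.toAlgHom Q) - (Q + Q)) := by abel
      rw [h4, h3, map_add, sub_self]
    refine ⟨scl W ⟨_, h2⟩, ?_⟩
    rw [toSha_scl]
    have h5 : tcl W (incl W ⟨_, h2⟩ - c) = 0 := by
      rw [tcl_zero_iff]
      refine ⟨-Q, fun σ => ?_⟩
      change (c.1 σ - (act W σ.toAlgHom Q - Q)) - c.1 σ = _
      rw [map_neg]
      abel
    rw [map_sub, sub_eq_zero] at h5
    exact h5

/-- the kernel of the map to the Tate-Shafarevich group is `E(F) / 2 E(F)` -/
theorem card_ker {W : WeierstrassCurve F}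
    (hdiv : ∀ P : Pt W (AlgebraicClosure F), ∃ Q, P = Q + Q) :
    Nat.card (toSha W).ker =
      Nat.card (W.toAffine.Point ⧸ (nsmulAddMonoidHom (α := W.toAffine.Point) 2).range) := by
  obtain ⟨j, hj, hjσ, hjf⟩ := exists_rat W
  choose q hq using fun g => hdiv (j g)
  have hsel : ∀ g : W.toAffine.Point, (fun σ : GF F => act W σ.toAlgHom (q g) - q g) ∈ selC W := by
    intro g
    refine ⟨cob_mem W _, fun σ => ?_⟩
    change act W σ.toAlgHom (q g) - q g + (act W σ.toAlgHom (q g) - q g) = 0
    have e3 : act W σ.toAlgHom (q g) - q g + (act W σ.toAlgHom (q g) - q g) =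
      (act W σ.toAlgHom (q g) + act W σ.toAlgHom (q g)) - (q g + q g) := by abel
    rw [e3, ← map_add, ← hq, hjσ, sub_self]
  -- two halves of the same point give the same class
  have hsame : ∀ (c c' : selC W) (Q Q' : Pt W (AlgebraicClosure F)),
      (∀ σ : GF F, c.1 σ = act W σ.toAlgHom Q - Q) →
      (∀ σ : GF F, c'.1 σ = act W σ.toAlgHom Q' - Q') → Q + Q = Q' + Q' → scl W c = scl W c' := by
    intro c c' Q Q' h1 h2 hQ
    rw [← sub_eq_zero, ← map_sub, scl_zero_iff]
    refine ⟨Q - Q', ?_, fun σ => ?_⟩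
    · have : (Q - Q') + (Q - Q') = (Q + Q) - (Q' + Q') := by abel
      rw [this, hQ, sub_self]
    · change c.1 σ - c'.1 σ = _
      rw [h1, h2, map_sub]
      abel
  let δ : W.toAffine.Point →+ Sel2 W :=
    AddMonoidHom.mk' (fun g => scl W ⟨_, hsel g⟩) (fun g g' => by
      rw [← map_add]
      refine hsame _ _ (q (g + g')) (q g + q g') (fun σ => rfl) (fun σ => ?_) ?_
      · change (act W σ.toAlgHom (q g) - q g) + (act W σ.toAlgHom (q g') - q g') = _
        rw [map_add]
        abel
      · rw [← hq, map_add, hq g, hq g']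
        abel)
  have hδ : ∀ g, δ g = scl W ⟨_, hsel g⟩ := fun g => rfl
  have hrange : δ.range = (toSha W).ker := by
    ext x
    constructor
    · rintro ⟨g, rfl⟩
      rw [AddMonoidHom.mem_ker, hδ, toSha_scl, tcl_zero_iff]
      exact ⟨q g, fun σ => rfl⟩
    · intro hx
      obtain ⟨c, rfl⟩ := scl_surj x
      rw [AddMonoidHom.mem_ker, toSha_scl, tcl_zero_iff] at hx
      obtain ⟨P, hP⟩ := hx
      have hP' : ∀ σ : GF F, c.1 σ = act W σ.toAlgHom P - P := hP
      have hfix : ∀ σ : GF F, act W σ.toAlgHom (P + P) = P + P := by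
        intro σ
        have e1 : c.1 σ + c.1 σ = 0 := c.2.2 σ
        rw [hP' σ] at e1
        have e2 : act W σ.toAlgHom P - P + (act W σ.toAlgHom P - P) =
          (act W σ.toAlgHom P + act W σ.toAlgHom P) - (P + P) := by abel
        rw [e2, sub_eq_zero] at e1
        rw [map_add]
        exact e1
      obtain ⟨g, hg⟩ := hjf _ hfix
      refine ⟨g, ?_⟩
      rw [hδ]
      exact hsame _ _ (q g) P (fun σ => rfl) hP' (by rw [← hq, hg])
  have hker : δ.ker = (nsmulAddMonoidHom (α := W.toAffine.Point) 2).range := by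
    ext g
    rw [AddMonoidHom.mem_ker, hδ, scl_zero_iff]
    constructor
    · rintro ⟨P, hP1, hP2⟩
      have hP2' : ∀ σ : GF F, act W σ.toAlgHom (q g) - q g = act W σ.toAlgHom P - P := hP2
      have hfix : ∀ σ : GF F, act W σ.toAlgHom (q g - P) = q g - P := by
        intro σ
        rw [map_sub]
        have := hP2' σ
        rw [sub_eq_sub_iff_sub_eq_sub] at this
        exact this
      obtain ⟨g', hg'⟩ := hjf _ hfix
      refine ⟨g', ?_⟩
      apply hj
      rw [nsmulAddMonoidHom_apply, two_nsmul, map_add, hg', hq]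
      have : q g - P + (q g - P) = (q g + q g) - (P + P) := by abel
      rw [this, hP1, sub_zero]
    · rintro ⟨g', rfl⟩
      refine ⟨q ((nsmulAddMonoidHom 2) g') - j g', ?_, fun σ => ?_⟩
      · have : (q ((nsmulAddMonoidHom 2) g') - j g') + (q ((nsmulAddMonoidHom 2) g') - j g') =
          (q ((nsmulAddMonoidHom 2) g') + q ((nsmulAddMonoidHom 2) g')) - (j g' + j g') := by abel
        rw [this, ← hq, nsmulAddMonoidHom_apply, two_nsmul, map_add, sub_self]
      · change act W σ.toAlgHom (q ((nsmulAddMonoidHom 2) g')) - q ((nsmulAddMonoidHom 2) g') = _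
        rw [map_sub, hjσ]
        abel
  rw [← hrange, ← hker]
  exact (Nat.card_congr (QuotientAddGroup.quotientKerEquivRange δ).toEquiv).symm

end number

/-- **The exact sequence.** -/
theorem exa : Pool.Agent.H575.ES.S_EXA := by
  intro F _ _ A B hD hfin
  set W : WeierstrassCurve F := ⟨0, 0, 0, A, B⟩ with hW
  have hdv : ∀ P : Pt W (AlgebraicClosure F), ∃ Q, P = Q + Q := fun P => hdiv hD P
  have hΔ : W.Δ ≠ 0 := by
    have e : W.Δ = -16 * (4 * A ^ 3 + 27 * B ^ 2) := by
      simp only [hW, WeierstrassCurve.Δ, WeierstrassCurve.b₂, WeierstrassCurve.b₄,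
        WeierstrassCurve.b₆, WeierstrassCurve.b₈]
      ring
    rw [e]
    exact mul_ne_zero (by norm_num) hD
  have hfg : AddGroup.FG W.toAffine.Point := Pool.Agent.Q286.EQ.mordell_weil F W hΔ
  have hrT : ∀ x : Sha W, x ∈ (toSha W).range ↔ x ∈ T2 (Sha W) 1 := fun x => by
    rw [toSha_range hdv, mem_T2_one]
  have hfr : Finite (toSha W).range :=
    Finite.of_surjective _ (toSha W).rangeRestrict_surjective
  have e1 : Nat.card (T2 (Sha W) 1) = Nat.card (toSha W).range :=
    Nat.card_congr (Equiv.subtypeEquivRight (fun x => (hrT x).symm))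
  have hT : Finite (T2 (Sha W) 1) :=
    Finite.of_equiv _ (Equiv.subtypeEquivRight (fun x => hrT x))
  refine ⟨hT, ?_⟩
  have e2 : Nat.card (Sel2 W) = Nat.card (toSha W).range * Nat.card (toSha W).ker := by
    rw [AddSubgroup.card_eq_card_quotient_mul_card_addSubgroup (toSha W).ker]
    congr 1
    exact Nat.card_congr (QuotientAddGroup.quotientKerEquivRange (toSha W)).toEquiv
  have hk : Nat.card (toSha W).ker = 2 ^ Module.finrank ℤ W.toAffine.Point *
      Nat.card {x : W.toAffine.Point // x + x = 0} := by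
    rw [card_ker hdv, Pool.Agent.Y214.SX.card_quot _ hfg]
  have hkp : 0 < Nat.card (toSha W).ker := Nat.card_pos
  have hk2 : 2 ^ Module.finrank ℤ W.toAffine.Point ≤ Nat.card (toSha W).ker := by
    rw [hk] at hkp ⊢
    exact Nat.le_mul_of_pos_right _ (Nat.pos_of_mul_pos_left hkp)
  rw [e1, e2, mul_comm]
  exact Nat.mul_le_mul_left _ hk2

end Pool.Agent.H97.ES
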